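import Pool.Agent.R549.BD.Main

/-! MP_cafa5e_lc, Q1: the type semigroup of a Borel action need not have plain paradoxes
(helper549, with helper872, helper379, helper999, helper711, helper891, helper736, helper569). The
proof uses Borel determinacy, proved in `Pool.Agent.R549.BD`. -/

namespace Pool.Agent.Results.MP_cafa5e_lc.NoPlainParadoxes

/-- The Borel sets `A, B ⊆ Y × ℕ` are equidecomposable: there are finite partitions of `A` and `B`
into Borel pieces `P i`, `Q i` such that `P i` lies in the level `j i` and `Q i` is the image of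
`P i` under `(y, j i) ↦ (γ i • y, k i)`. -/
def Equidecomposable (Γ Y : Type) [Group Γ] [MulAction Γ Y] [MeasurableSpace Y]
    (A B : Set (Y × ℕ)) : Prop :=
  ∃ (r : ℕ) (P Q : Fin r → Set (Y × ℕ)) (γ : Fin r → Γ) (j k : Fin r → ℕ),
    (∀ i, MeasurableSet (P i)) ∧ (∀ i, MeasurableSet (Q i)) ∧
    (∀ i i', i ≠ i' → Disjoint (P i) (P i')) ∧ (∀ i i', i ≠ i' → Disjoint (Q i) (Q i')) ∧
    A = (⋃ i, P i) ∧ B = (⋃ i, Q i) ∧
    (∀ i, ∀ p ∈ P i, p.2 = j i) ∧
    ∀ i, Q i = {q | ∃ y, (y, j i) ∈ P i ∧ q = (γ i • y, k i)}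

/-- `n` disjoint copies of `A ⊆ Y`, the representative `A × {0, …, n-1}` of `n [A × {0}]`. -/
def copiesOf {Y : Type} (n : ℕ) (A : Set Y) : Set (Y × ℕ) := {p | p.1 ∈ A ∧ p.2 < n}

/-- `n [A × {0}] ≤ m [A × {0}]`: the `n` copies of `A` are equidecomposable with a Borel subset of
the `m` copies of `A`. -/
def CopiesLe (Γ Y : Type) [Group Γ] [MulAction Γ Y] [MeasurableSpace Y] (n m : ℕ) (A : Set Y) :
    Prop :=
  ∃ B ⊆ copiesOf m A, MeasurableSet B ∧ Equidecomposable Γ Y (copiesOf n A) B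

/-- There are a finitely generated group `Γ` acting by Borel automorphisms on a standard Borel
space `Y` and a Borel set `A` whose class `α` in the type semigroup satisfies `3 α ≤ 2 α` but not
`2 α ≤ α`. -/
theorem result : ∃ (Y : Type) (_ : MeasurableSpace Y) (_ : StandardBorelSpace Y) (Γ : Type)
    (_ : Group Γ) (_ : MulAction Γ Y) (A : Set Y), Group.FG Γ ∧
    (∀ g : Γ, Measurable (fun y : Y => g • y)) ∧ MeasurableSet A ∧
    CopiesLe Γ Y 3 2 A ∧ ¬ CopiesLe Γ Y 2 1 A :=
  Pool.Agent.R549.BD.plain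

end Pool.Agent.Results.MP_cafa5e_lc.NoPlainParadoxes
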